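import Pool.Agent.H546.SV
import Pool.Agent.H546.Lin2

set_option autoImplicit false

/-!
# `∑ C(-1/3,k) C(-1/6,k) / (-80)^k` and `∑ C(-2/3,k) C(-5/6,k) / (-80)^k` modulo `p²` (Q1)

The proof: modulo `p²` the sums are combinations of the Legendre polynomials `P_n(9√5/20)`, `n = ⌊p/3⌋, ⌊2p/3⌋,
⌊4p/3⌋, ⌊5p/3⌋`; the elliptic curve `y² = x³ + (6A-27)x + (A²-18A+54)`, `A = 2 - 9√5/10`, with complex multiplication
by the order of discriminant `-75`, has isogenies of degrees `7` and `3` to its conjugate; over the Witt vectors of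
an algebraic closure of `ZMod p` a combination of degree `p` lifts the Frobenius, its sign is read off from the
point of order three, and comparing expansions modulo `p²` gives the values of the combinations.
-/

open Finset

namespace Pool.Agent.Results.MP_748296_nt.MinusEighty

/-- the generalised binomial coefficient `a (a-1) ⋯ (a-k+1) / k!` -/
def gb (a : ℚ) (k : ℕ) : ℚ := (∏ i ∈ range k, (a - i)) / (k.factorial : ℚ)

/-- the sum `S₁(p)` -/
def S₁ (p : ℕ) : ℚ := ∑ k ∈ range p, gb (-1 / 3) k * gb (-1 / 6) k / (-80) ^ k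

/-- the sum `S₂(p)` -/
def S₂ (p : ℕ) : ℚ := ∑ k ∈ range p, gb (-2 / 3) k * gb (-5 / 6) k / (-80) ^ k

/-- congruence modulo `p^m` of rational numbers: `(a - b) / p^m` has denominator prime to `p` -/
def Cong (p m : ℕ) (a b : ℚ) : Prop := p.Coprime ((a - b) / (p : ℚ) ^ m).den

open Pool.Agent.H546

theorem cong_trans {p m : ℕ} {a b c : ℚ} (h1 : Cong p m a c) (h2 : Cong p m b c) : Cong p m a b := by
  unfold Cong at *
  have e : (a - b) / (p : ℚ) ^ m = (a - c) / (p : ℚ) ^ m - (b - c) / (p : ℚ) ^ m := by ring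
  rw [e]
  exact cop_sub h1 h2

theorem S_eq (p : ℕ) : S₁ p =
    ∑ n ∈ range p, Pool.Agent.H546.gb (-1 / 3) n * Pool.Agent.H546.gb (-1 / 6) n * (-1 / 80 : ℚ) ^ n := by
  unfold S₁
  refine sum_congr rfl fun k _ => ?_
  rw [show (-1 / 80 : ℚ) = 1 / (-80) by norm_num, one_div_pow, mul_one_div]
  rfl

theorem T_eq (p : ℕ) : S₂ p =
    ∑ n ∈ range p, Pool.Agent.H546.gb (-2 / 3) n * Pool.Agent.H546.gb (-5 / 6) n * (-1 / 80 : ℚ) ^ n := by
  unfold S₂
  refine sum_congr rfl fun k _ => ?_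
  rw [show (-1 / 80 : ℚ) = 1 / (-80) by norm_num, one_div_pow, mul_one_div]
  rfl

theorem t_K {p : ℕ} [hp : Fact p.Prime] [CharZero (KO p)] {t : WO p} (ht : 80 * t = -1) :
    ((-1 / 80 : ℚ) : KO p) = algebraMap (WO p) (KO p) t := by
  have h := congrArg (algebraMap (WO p) (KO p)) ht
  rw [map_mul, map_ofNat, map_neg, map_one] at h
  have h2 : (80 : KO p) ≠ 0 := by norm_num
  push_cast
  rw [div_eq_iff h2]
  linear_combination -h

/-- a variable of a form with value `4 p` -/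
theorem form_var4 {p : ℕ} (h4 : 4 < p) {a b : ℤ} (ha : 1 ≤ a) (hb : 0 ≤ b) {x y : ℤ}
    (hx0 : x ≠ 0) (h : 4 * (p : ℤ) = a * x ^ 2 + b * y ^ 2) : ¬ (p : ℤ) ∣ x := by
  rintro ⟨c, rfl⟩
  have hc : 1 ≤ c ^ 2 := by
    have : c ≠ 0 := by rintro rfl; exact hx0 (by ring)
    have : c ^ 2 ≠ 0 := pow_ne_zero 2 this
    have := sq_nonneg c
    omega
  have hp1 : (4 : ℤ) < p := by exact_mod_cast h4
  have h1 : (p : ℤ) ^ 2 * 1 ≤ (p : ℤ) ^ 2 * c ^ 2 := mul_le_mul_of_nonneg_left hc (sq_nonneg _)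
  have h2 : 4 * (p : ℤ) < p ^ 2 := by nlinarith
  have h4 : (p : ℤ) ^ 2 * c ^ 2 * 1 ≤ (p : ℤ) ^ 2 * c ^ 2 * a := mul_le_mul_of_nonneg_left ha (by positivity)
  have h5 : 0 ≤ b * y ^ 2 := mul_nonneg hb (sq_nonneg _)
  have h3' : a * ((p : ℤ) * c) ^ 2 = (p : ℤ) ^ 2 * c ^ 2 * a := by ring
  rw [h3'] at h
  linarith

/-- the data over the Witt vectors -/
theorem data (p : ℕ) [hp : Fact p.Prime] (h5 : 5 < p) :
    ∃ (v i6 ρ σ z t : WO p) (iv : ℕ → WO p), 2 * v = 1 ∧ 6 * i6 = 1 ∧ ρ ^ 2 = -3 ∧ σ ^ 2 = 5 ∧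
      40 * z = 20 - 9 * σ ∧ 80 * t = -1 ∧ (∀ n, n + 1 < p → ((n : WO p) + 1) * iv (n + 1) = 1) := by
  have n5 : ¬ (p : ℤ) ∣ 5 := by
    have := ndvd_of_primes p (n := 5) (l := [5]) (by simp; norm_num) (by norm_num) (by simp; omega)
    exact_mod_cast this
  obtain ⟨σ, hσ⟩ := wo_isqrt p (by omega) n5
  obtain ⟨v, i6, ρ, iv, hv, h6, hρ, hiv⟩ := wo_data p (by omega) (by omega)
  have h5' : 5 * iv 5 = 1 := by
    have := hiv 4 (by omega)
    push_cast at this
    linear_combination this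
  refine ⟨v, i6, ρ, σ, v ^ 3 * iv 5 * (20 - 9 * σ), -(v ^ 4 * iv 5), iv, hv, h6, hρ, by exact_mod_cast hσ, ?_, ?_, hiv⟩
  · linear_combination ((4 * v ^ 2 + 2 * v + 1) * (20 - 9 * σ) * (5 * iv 5)) * hv + (20 - 9 * σ) * h5'
  · linear_combination (-(8 * v ^ 3 + 4 * v ^ 2 + 2 * v + 1) * (5 * iv 5)) * hv - h5'

/-- the classes `1, 19` -/
theorem main1 (p : ℕ) [hp : Fact p.Prime] (h19 : 18 < p) (hc3 : p % 3 = 1) (hc5 : jacobiSym 5 p = 1) (x y : ℤ)
    (hxy : 4 * (p : ℤ) = x ^ 2 + 75 * y ^ 2) (hx3 : x % 3 = 2) (hpx : ¬ (p : ℤ) ∣ x) :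
    Cong p 2 (S₁ p) (x - p / x) ∧ Cong p 2 (jacobiSym 5 p * S₂ p) (x - p / x) := by
  have hq := SW_q p
  have : CharZero (KO p) := charZero_K (SW p) hq
  rw [hc5]
  have hl5 : jacobiSym 5 p = legendreSym p 5 := (jacobiSym.legendreSym.to_jacobiSym p 5).symm
  rw [hl5] at hc5
  obtain ⟨v, i6, ρ, σ, z, t, iv, hv, h6, hρ, hσ, hz, ht, hiv⟩ := data p (by omega)
  obtain ⟨r, hr⟩ : ∃ r, x = 2 * r + 3 * y := by
    have h1 : (x ^ 2 + 75 * y ^ 2) % 2 = 0 := by omega
    have hx : x % 2 = 0 ∨ x % 2 = 1 := by omega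
    have hy : y % 2 = 0 ∨ y % 2 = 1 := by omega
    rcases hx with hx | hx <;> rcases hy with hy | hy <;>
      first
        | exact ⟨(x - 3 * y) / 2, by omega⟩
        | (exfalso; rw [pow_two, pow_two, Int.add_emod, Int.mul_emod, hx, Int.mul_emod 75, Int.mul_emod y, hy] at h1
           norm_num at h1)
  have hpr : (p : ℤ) = r ^ 2 + 3 * r * y + 21 * y ^ 2 := by
    rw [hr] at hxy
    linarith [hxy, show (2 * r + 3 * y) ^ 2 + 75 * y ^ 2 = 4 * (r ^ 2 + 3 * r * y + 21 * y ^ 2) by ring]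
  obtain ⟨g1, g2⟩ := sv_case1 (SW p) hq h19 hc3 hc5 hσ hρ hv hz ht hiv h6 r y (by omega) hpr
  obtain ⟨hS, hT⟩ := S_K h6 hiv (t_K ht)
  rw [← S_eq] at hS
  rw [← T_eq] at hT
  rw [← hr] at g1 g2
  have hx0 : (x : ℚ) ≠ 0 := by
    intro h
    have : x = 0 := by exact_mod_cast h
    exact hpx (by rw [this]; exact dvd_zero _)
  refine ⟨?_, ?_⟩
  · refine fin_int (SW p) hq hS hpx g1 ?_
    push_cast
    field_simp
  · rw [Int.cast_one, one_mul]
    refine fin_int (SW p) hq hT hpx g2 ?_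
    push_cast
    field_simp

/-- the classes `7, 13` -/
theorem main2 (p : ℕ) [hp : Fact p.Prime] (h19 : 18 < p) (hc3 : p % 3 = 1) (hc5 : jacobiSym 5 p = -1) (x y : ℤ)
    (hxy : 4 * (p : ℤ) = 25 * x ^ 2 + 3 * y ^ 2) (hx3 : x % 3 = 1) (hpx : ¬ (p : ℤ) ∣ x) :
    Cong p 2 (S₁ p) (5 * x - p / (5 * x)) ∧ Cong p 2 (jacobiSym 5 p * S₂ p) (5 * x - p / (5 * x)) := by
  have hq := SW_q p
  have : CharZero (KO p) := charZero_K (SW p) hq
  rw [hc5]
  have hl5 : jacobiSym 5 p = legendreSym p 5 := (jacobiSym.legendreSym.to_jacobiSym p 5).symm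
  rw [hl5] at hc5
  obtain ⟨v, i6, ρ, σ, z, t, iv, hv, h6, hρ, hσ, hz, ht, hiv⟩ := data p (by omega)
  obtain ⟨s, hs⟩ : ∃ s, y = 2 * s - x := by
    have h1 : (25 * x ^ 2 + 3 * y ^ 2) % 2 = 0 := by omega
    have hx : x % 2 = 0 ∨ x % 2 = 1 := by omega
    have hy : y % 2 = 0 ∨ y % 2 = 1 := by omega
    rcases hx with hx | hx <;> rcases hy with hy | hy <;>
      first
        | exact ⟨(y + x) / 2, by omega⟩
        | (exfalso; rw [pow_two, pow_two, Int.add_emod, Int.mul_emod, Int.mul_emod x, hx, Int.mul_emod 3,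
            Int.mul_emod y, hy] at h1
           norm_num at h1)
  have hpr : (p : ℤ) = 7 * x ^ 2 - 3 * x * s + 3 * s ^ 2 := by
    rw [hs] at hxy
    linarith [hxy, show 25 * x ^ 2 + 3 * (2 * s - x) ^ 2 = 4 * (7 * x ^ 2 - 3 * x * s + 3 * s ^ 2) by ring]
  obtain ⟨g1, g2⟩ := sv_case2 (SW p) hq h19 hc3 hc5 hσ hρ hv hz ht hiv h6 x s (by omega) hpr
  obtain ⟨hS, hT⟩ := S_K h6 hiv (t_K ht)
  rw [← S_eq] at hS
  rw [← T_eq] at hT
  have hpz : Prime (p : ℤ) := Nat.prime_iff_prime_int.mp hp.out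
  have n5 : ¬ (p : ℤ) ∣ 5 := by
    have := ndvd_of_primes p (n := 5) (l := [5]) (by simp; norm_num) (by norm_num) (by simp; omega)
    exact_mod_cast this
  have hX : ¬ (p : ℤ) ∣ 5 * x := fun h => (hpz.dvd_or_dvd h).elim n5 hpx
  have hx0 : (x : ℚ) ≠ 0 := by
    intro h
    have : x = 0 := by exact_mod_cast h
    exact hpx (by rw [this]; exact dvd_zero _)
  refine ⟨?_, ?_⟩
  · refine fin_int (SW p) hq hS hX g1 ?_
    push_cast
    field_simp
  · refine fin_int (SW p) hq (SO := -hyp iv p (4 * i6) (5 * i6) t) ?_ hX g2 ?_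
    · rw [map_neg, ← hT]; push_cast; ring
    · push_cast
      field_simp

/-- the classes `17, 23` -/
theorem main0 (p : ℕ) [hp : Fact p.Prime] (h7 : 7 < p) (hc3 : p % 3 = 2) (hc5 : jacobiSym 5 p = -1) :
    Cong p 1 (S₁ p) 0 ∧ Cong p 1 (S₂ p) 0 := by
  have hq := SW_q p
  have : CharZero (KO p) := charZero_K (SW p) hq
  have hl5 : jacobiSym 5 p = legendreSym p 5 := (jacobiSym.legendreSym.to_jacobiSym p 5).symm
  rw [hl5] at hc5
  obtain ⟨v, i6, ρ, σ, z, t, iv, hv, h6, hρ, hσ, hz, ht, hiv⟩ := data p (by omega)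
  obtain ⟨g1, g2⟩ := sv_zero (SW p) hq h7 hc3 hc5 hσ hρ hv hz ht hiv h6
    (by rw [legm3 (by omega) (by omega), if_neg (by omega)])
  obtain ⟨hS, hT⟩ := S_K h6 hiv (t_K ht)
  rw [← S_eq] at hS
  rw [← T_eq] at hT
  unfold Cong
  rw [pow_one, sub_zero, sub_zero]
  exact ⟨fin_zero (SW p) hq hS g1, fin_zero (SW p) hq hT g2⟩

theorem s7 : S₁ 7 = 288682010670399515149 / 288881654523494400000 ∧
    S₂ 7 = 1147577955093938184883 / 1155526618093977600000 := by
  refine ⟨?_, ?_⟩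
  · norm_num [S₁, gb, sum_range_succ, prod_range_succ, Nat.factorial]
  · norm_num [S₂, gb, sum_range_succ, prod_range_succ, Nat.factorial]

theorem s13 : S₁ 13 = 96070967278426440400929514749743861052362663 / 96137407088906771563224868029726720000000000 ∧
    S₂ 13 = 23869023722079942877826438223933351941492561 / 24034351772226692890806217007431680000000000 := by
  refine ⟨?_, ?_⟩
  · norm_num [S₁, gb, sum_range_succ, prod_range_succ, Nat.factorial]
  · norm_num [S₂, gb, sum_range_succ, prod_range_succ, Nat.factorial]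

/-- **The full answer to Q1.** -/
theorem result (p : ℕ) (hp : p.Prime) (h5 : 5 < p) :
    (p % 30 = 1 ∨ p % 30 = 19 → ∀ x y : ℤ, 4 * (p : ℤ) = x ^ 2 + 75 * y ^ 2 → x % 3 = 2 →
      Cong p 2 (S₁ p) (x - p / x) ∧ Cong p 2 (jacobiSym 5 p * S₂ p) (x - p / x) ∧
      Cong p 2 (S₁ p) (jacobiSym 5 p * S₂ p)) ∧
    (p % 30 = 7 ∨ p % 30 = 13 → ∀ x y : ℤ, 4 * (p : ℤ) = 25 * x ^ 2 + 3 * y ^ 2 → x % 3 = 1 →
      Cong p 2 (S₁ p) (5 * x - p / (5 * x)) ∧ Cong p 2 (jacobiSym 5 p * S₂ p) (5 * x - p / (5 * x)) ∧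
      Cong p 2 (S₁ p) (jacobiSym 5 p * S₂ p)) ∧
    (p % 30 = 17 ∨ p % 30 = 23 →
      Cong p 1 (S₁ p) 0 ∧ Cong p 1 (jacobiSym 5 p * S₂ p) 0 ∧ Cong p 1 (S₁ p) (jacobiSym 5 p * S₂ p)) := by
  have : Fact p.Prime := ⟨hp⟩
  have h49 : p ≠ 49 := by rintro rfl; exact absurd hp (by norm_num)
  refine ⟨fun hc x y hxy hx3 => ?_, fun hc x y hxy hx3 => ?_, fun hc => ?_⟩
  · have hx0 : x ≠ 0 := by rintro rfl; omega
    have hpx := form_var4 (p := p) (by omega) (a := 1) (b := 75) (by norm_num) (by norm_num) (y := y) hx0 (by rw [hxy]; ring)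
    have hc5 : jacobiSym 5 p = 1 := by rw [jac5_p h5, if_pos (by omega)]
    obtain ⟨g1, g2⟩ := main1 p (by omega) (by omega) hc5 x y hxy hx3 hpx
    exact ⟨g1, g2, cong_trans g1 g2⟩
  · have hx0 : x ≠ 0 := by rintro rfl; omega
    have hpx := form_var4 (p := p) (by omega) (a := 25) (b := 3) (by norm_num) (by norm_num) (y := y) hx0 hxy
    have hc5 : jacobiSym 5 p = -1 := by rw [jac5_p h5, if_neg (by omega)]
    have key : Cong p 2 (S₁ p) (5 * x - p / (5 * x)) ∧ Cong p 2 (jacobiSym 5 p * S₂ p) (5 * x - p / (5 * x)) := by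
      by_cases h19 : 18 < p
      · exact main2 p h19 (by omega) hc5 x y hxy hx3 hpx
      · have hp' : p = 7 ∨ p = 13 := by omega
        have hx2 : x ^ 2 ≤ 2 := by
          have := sq_nonneg y
          rcases hp' with h | h <;> (rw [h] at hxy; push_cast at hxy; omega)
        have hx1 : x = 1 := by
          have h1 : x ≤ 1 := by nlinarith
          have h2 : -1 ≤ x := by nlinarith
          omega
        rw [hc5, hx1]
        rcases hp' with rfl | rfl
        · refine ⟨cop_of_eq (n := -15332488686003680099) (d := 288881654523494400000) ?_ (by norm_num),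
            cop_of_eq (n := -108315791433311378467) (d := 1155526618093977600000) ?_ (by norm_num)⟩
          · rw [s7.1]; norm_num
          · rw [s7.2]; norm_num
        · refine ⟨cop_of_eq (n := -796797690739347996158640050423670218625073)
              (d := 96137407088906771563224868029726720000000000) ?_ (by norm_num),
            cop_of_eq (n := -482553064943337312519297982495676828056169)
              (d := 24034351772226692890806217007431680000000000) ?_ (by norm_num)⟩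
          · rw [s13.1]; norm_num
          · rw [s13.2]; norm_num
    exact ⟨key.1, key.2, cong_trans key.1 key.2⟩
  · have hc5 : jacobiSym 5 p = -1 := by rw [jac5_p h5, if_neg (by omega)]
    obtain ⟨g1, g2⟩ := main0 p (by omega) (by omega) hc5
    have g3 : Cong p 1 (jacobiSym 5 p * S₂ p) 0 := by
      rw [hc5]
      unfold Cong at g2 ⊢
      have e : (((-1 : ℤ) : ℚ) * S₂ p - 0) / (p : ℚ) ^ 1 = 0 - (S₂ p - 0) / (p : ℚ) ^ 1 := by push_cast; ring
      rw [e]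
      exact cop_sub (by simp) g2
    exact ⟨g1, g3, cong_trans g1 g3⟩

end Pool.Agent.Results.MP_748296_nt.MinusEighty
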